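import Pool.Agent.helper82.LB.Spec1

/-!
# Project LB (MP_2e0e07_nt), row SPT: completely split primes
-/

set_option autoImplicit false

open Matrix Polynomial NumberField Pool.Agent.GO Pool.Agent.RG Pool.Agent.CH

namespace Pool.Agent.LB

/-- the prime field of a domain of characteristic `p` in which `x ^ p = x` -/
theorem SPT_surj (p : ℕ) [Fact p.Prime] (D : Type) [CommRing D] [IsDomain D] (hp : (p : D) = 0) (h : ∀ x : D, x ^ p = x) :
    Nonempty (D →+* ZMod p) := by
  classical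
  have hprime : p.Prime := Fact.out
  have hchar : CharP D p := (CharP.charP_iff_prime_eq_zero hprime).2 hp
  let ι := ZMod.castHom (dvd_refl p) D
  have hinj : Function.Injective ι := ι.injective
  have hsurj : Function.Surjective ι := by
    intro x
    by_contra hx
    push Not at hx
    obtain ⟨Z, hZ⟩ : ∃ Z : Finset D, Z.card = p + 1 := by
      refine ⟨insert x (Finset.univ.image ι), ?_⟩
      rw [Finset.card_insert_of_notMem, Finset.card_image_of_injective _ hinj, Finset.card_univ, ZMod.card]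
      intro h1
      obtain ⟨a, -, ha⟩ := Finset.mem_image.1 h1
      exact hx a ha
    have hdeg : (X ^ p - X : D[X]).natDegree = p := by
      have h1 : (X : D[X]).degree < (X ^ p : D[X]).degree := by
        rw [degree_X_pow, degree_X]
        exact_mod_cast hprime.one_lt
      rw [natDegree_eq_of_degree_eq (degree_sub_eq_left_of_degree_lt h1), natDegree_X_pow]
    have hne : (X ^ p - X : D[X]) ≠ 0 := by
      intro h0
      rw [h0, natDegree_zero] at hdeg
      exact hprime.ne_zero hdeg.symm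
    have hsub : Z.val ⊆ (X ^ p - X : D[X]).roots := by
      intro y _
      rw [Polynomial.mem_roots hne, IsRoot, eval_sub, eval_pow, eval_X, h, sub_self]
    have h1 := Polynomial.card_le_degree_of_subset_roots hsub
    rw [hdeg, hZ] at h1
    omega
  exact ⟨(RingEquiv.ofBijective ι ⟨hinj, hsurj⟩).symm.toRingHom⟩

/-- a completely split prime: a homomorphism to the prime field -/
theorem SPT_hom (hCHEB : CHEB_stmt) (M : Type) [Field M] [NumberField M] [IsGalois ℚ M] (T : Finset ℕ) :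
    ∃ p : ℕ, p.Prime ∧ p ∉ T ∧ Nonempty (𝓞 M →+* ZMod p) := by
  obtain ⟨p, P, hp, hpT, hP, hnorm, hFrob⟩ := hCHEB ℚ M (1 : M ≃ₐ[ℚ] M) T
  refine ⟨p, hp, hpT, ?_⟩
  have : Fact p.Prime := ⟨hp⟩
  have hcard : Nat.card (𝓞 ℚ ⧸ P.under (𝓞 ℚ)) = p := by
    rw [← hnorm, Ideal.absNorm_apply, Submodule.cardQuot_apply]
  have hpow : ∀ x : 𝓞 M ⧸ P, x ^ p = x := by
    intro x
    obtain ⟨x, rfl⟩ := Ideal.Quotient.mk_surjective x
    have h := hFrob.mk_apply x
    rw [hcard, MulSemiringAction.toAlgHom_apply, one_smul] at h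
    exact h.symm
  have hpP : ((p : ℕ) : 𝓞 M) ∈ P := by
    have h := Ideal.absNorm_mem (P.under (𝓞 ℚ))
    rw [hnorm, Ideal.mem_comap, map_natCast] at h
    exact h
  have hp0 : ((p : ℕ) : 𝓞 M ⧸ P) = 0 := by
    rw [← map_natCast (Ideal.Quotient.mk P), Ideal.Quotient.eq_zero_iff_mem]
    exact hpP
  have hD : IsDomain (𝓞 M ⧸ P) := Ideal.Quotient.isDomain P
  obtain ⟨ψ⟩ := SPT_surj p (𝓞 M ⧸ P) hp0 hpow
  exact ⟨ψ.comp (Ideal.Quotient.mk P)⟩

/-- clearing denominators -/
theorem SPT_bez (f : ℤ[X]) (h : (f.map (algebraMap ℤ ℚ)).Separable) :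
    ∃ (m : ℤ) (a b : ℤ[X]), m ≠ 0 ∧ a * f + b * derivative f = C m := by
  obtain ⟨a, b, hab⟩ := h
  obtain ⟨c, hc, hc'⟩ := IsLocalization.integerNormalization_spec (nonZeroDivisors ℤ) a
  obtain ⟨d, hd, hd'⟩ := IsLocalization.integerNormalization_spec (nonZeroDivisors ℤ) b
  set a' := IsLocalization.integerNormalization (nonZeroDivisors ℤ) a
  set b' := IsLocalization.integerNormalization (nonZeroDivisors ℤ) b
  refine ⟨c * d, C d * a', C c * b', mul_ne_zero (nonZeroDivisors.ne_zero hc) (nonZeroDivisors.ne_zero hd), ?_⟩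
  apply Polynomial.map_injective (algebraMap ℤ ℚ) (algebraMap ℤ ℚ).injective_int
  rw [derivative_map] at hab
  simp only [Polynomial.map_add, Polynomial.map_mul, Polynomial.map_C, hc', hd']
  have e1 : (c • a : ℚ[X]) = C (algebraMap ℤ ℚ c) * a := by
    rw [← smul_eq_C_mul, algebraMap_smul]
  have e2 : (d • b : ℚ[X]) = C (algebraMap ℤ ℚ d) * b := by
    rw [← smul_eq_C_mul, algebraMap_smul]
  rw [e1, e2, map_mul, C_mul]
  linear_combination (C (algebraMap ℤ ℚ c) * C (algebraMap ℤ ℚ d)) * hab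

theorem SPT_zero (p : ℕ) [Fact p.Prime] (x : ℤ_[p]) : PadicInt.toZMod x = 0 ↔ ‖x‖ < 1 := by
  rw [← RingHom.mem_ker, PadicInt.ker_toZMod, IsLocalRing.mem_maximalIdeal, PadicInt.mem_nonunits]

/-- Hensel's lemma -/
theorem SPT_split (p : ℕ) [Fact p.Prime] (f : ℤ[X]) (hf : f.Monic) (m : ℤ) (a b : ℤ[X]) (hab : a * f + b * derivative f = C m)
    (hm : (m : ZMod p) ≠ 0) (hs : (f.map (Int.castRingHom (ZMod p))).Splits) : (f.map (Int.castRingHom ℚ_[p])).Splits := by
  classical
  set g := f.map (Int.castRingHom (ZMod p)) with hg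
  have hgm : g.Monic := hf.map _
  have hab' := congrArg (Polynomial.map (Int.castRingHom (ZMod p))) hab
  rw [Polynomial.map_add, Polynomial.map_mul, Polynomial.map_mul, ← derivative_map, ← hg, Polynomial.map_C, eq_intCast] at hab'
  have hsep : g.Separable := by
    refine ⟨C ((m : ZMod p)⁻¹) * a.map (Int.castRingHom (ZMod p)), C ((m : ZMod p)⁻¹) * b.map (Int.castRingHom (ZMod p)), ?_⟩
    have e : (C ((m : ZMod p)⁻¹) : (ZMod p)[X]) * C (m : ZMod p) = 1 := by
      rw [← C_mul, inv_mul_cancel₀ hm, C_1]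
    linear_combination C ((m : ZMod p)⁻¹) * hab' + e
  have hnd : g.roots.Nodup := Polynomial.nodup_roots hsep
  have hcard : g.roots.card = f.natDegree := by
    rw [← hs.natDegree_eq_card_roots, hg, hf.natDegree_map]
  have hev : ∀ (q : ℤ[X]) (x : ℤ_[p]), PadicInt.toZMod (aeval x q) = eval (PadicInt.toZMod x) (q.map (Int.castRingHom (ZMod p))) := by
    intro q x
    rw [aeval_def, hom_eval₂, eval_map]
    exact congrArg (fun r : ℤ →+* ZMod p => eval₂ r (PadicInt.toZMod x) q) (RingHom.ext_int _ _)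
  have hroot : ∀ r ∈ g.roots, ∃ z : ℤ_[p], aeval z f = 0 ∧ PadicInt.toZMod z = r := by
    intro r hr
    have hr0 : eval r g = 0 := (Polynomial.mem_roots hgm.ne_zero).1 hr
    set a₀ : ℤ_[p] := (r.val : ℤ_[p]) with ha₀
    have ha : PadicInt.toZMod a₀ = r := by
      rw [ha₀, map_natCast, ZMod.natCast_zmod_val]
    have h1 : ‖aeval a₀ f‖ < 1 := by
      rw [← SPT_zero, hev, ha]
      exact hr0
    have h2 : ‖aeval a₀ (derivative f)‖ = 1 := by
      have h3 : ¬ ‖aeval a₀ (derivative f)‖ < 1 := by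
        rw [← SPT_zero, hev, ha, ← derivative_map, ← hg]
        intro h4
        have h5 := congrArg (eval r) hab'
        rw [eval_add, eval_mul, eval_mul, hr0, h4, mul_zero, mul_zero, add_zero, eval_C] at h5
        exact hm h5.symm
      exact le_antisymm (PadicInt.norm_le_one _) (not_lt.1 h3)
    obtain ⟨z, hz1, hz2, -, -⟩ := hensels_lemma (p := p) (R := ℤ) (F := f) (a := a₀) (by rw [h2]; simpa using h1)
    refine ⟨z, hz1, ?_⟩
    rw [h2] at hz2
    rw [← SPT_zero, map_sub, ha, sub_eq_zero] at hz2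
    exact hz2
  choose! z hz using hroot
  have hfm : (f.map (Int.castRingHom ℚ_[p])).Monic := hf.map _
  let R : Finset ℚ_[p] := g.roots.toFinset.image fun r => (z r : ℚ_[p])
  have hR : R.card = f.natDegree := by
    rw [Finset.card_image_of_injOn, Multiset.toFinset_card_of_nodup hnd, hcard]
    intro r hr r' hr' h
    have h1 : z r = z r' := Subtype.coe_injective h
    rw [← (hz r (Multiset.mem_toFinset.1 hr)).2, ← (hz r' (Multiset.mem_toFinset.1 hr')).2, h1]
  have hsub : R.val ⊆ (f.map (Int.castRingHom ℚ_[p])).roots := by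
    intro x hx
    obtain ⟨r, hr, rfl⟩ := Finset.mem_image.1 (show x ∈ R from hx)
    rw [Polynomial.mem_roots hfm.ne_zero, IsRoot, eval_map]
    have h1 := congrArg (algebraMap ℤ_[p] ℚ_[p]) (hz r (Multiset.mem_toFinset.1 hr)).1
    rw [aeval_def, hom_eval₂, map_zero] at h1
    rw [← h1]
    exact congrArg (fun s : ℤ →+* ℚ_[p] => eval₂ s ((z r : ℤ_[p]) : ℚ_[p]) f) (RingHom.ext_int _ _)
  have hle : R.card ≤ (f.map (Int.castRingHom ℚ_[p])).roots.card :=
    Multiset.card_le_card ((Multiset.le_iff_subset R.nodup).2 hsub)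
  rw [splits_iff_card_roots]
  refine le_antisymm (Polynomial.card_roots' _) ?_
  rw [hf.natDegree_map, ← hR]
  exact hle

/-- the factorization over the ring of integers -/
theorem SPT_fac (M : Type) [Field M] [NumberField M] (f : ℤ[X]) (hf : f.Monic) (hs : (f.map (algebraMap ℤ M)).Splits) :
    (f.map (algebraMap ℤ (𝓞 M))).Splits := by
  have hfm : (f.map (algebraMap ℤ M)).Monic := hf.map _
  have hint : ∀ x ∈ (f.map (algebraMap ℤ M)).roots, IsIntegral ℤ x := by
    intro x hx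
    refine ⟨f, hf, ?_⟩
    have h1 := (Polynomial.mem_roots hfm.ne_zero).1 hx
    rw [IsRoot, eval_map] at h1
    exact h1
  obtain ⟨s, hs'⟩ : ∃ s : Multiset (𝓞 M), s.map (algebraMap (𝓞 M) M) = (f.map (algebraMap ℤ M)).roots := by
    refine ⟨(f.map (algebraMap ℤ M)).roots.attach.map fun x => (⟨x.1, hint x.1 x.2⟩ : integralClosure ℤ M), ?_⟩
    exact (Multiset.map_map _ _ _).trans (Multiset.attach_map_val _)
  have h1 : f.map (algebraMap ℤ (𝓞 M)) = (s.map fun a => X - C a).prod := by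
    apply Polynomial.map_injective (algebraMap (𝓞 M) M) (RingOfIntegers.coe_injective)
    rw [Polynomial.map_map, Polynomial.map_multiset_prod, Multiset.map_map]
    have e1 : (algebraMap (𝓞 M) M).comp (algebraMap ℤ (𝓞 M)) = algebraMap ℤ M := RingHom.ext_int _ _
    rw [e1]
    have e2 : (s.map ((Polynomial.map (algebraMap (𝓞 M) M)) ∘ fun a => X - C a)) = ((f.map (algebraMap ℤ M)).roots.map fun a => X - C a) := by
      rw [← hs', Multiset.map_map]
      refine Multiset.map_congr rfl fun a _ => ?_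
      simp
    rw [e2]
    exact (hs.eq_prod_roots_of_monic hfm)
  rw [h1]
  refine Splits.multisetProd fun q hq => ?_
  obtain ⟨a, -, rfl⟩ := Multiset.mem_map.1 hq
  exact Splits.X_sub_C a

theorem SPT_M' (f : ℤ[X]) (h : (f.map (algebraMap ℤ ℚ)).Separable) (M : Type) [Field M] [CharZero M] (A : Algebra ℚ M)
    (hfd : @FiniteDimensional ℚ M _ _ A.toModule) (hsp : @IsSplittingField ℚ M _ _ A (f.map (algebraMap ℤ ℚ))) :
    ∃ (_ : NumberField M) (_ : IsGalois ℚ M), (f.map (algebraMap ℤ M)).Splits := by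
  obtain rfl : A = DivisionRing.toRatAlgebra := Subsingleton.elim _ _
  have iG : IsGalois ℚ M := IsGalois.of_separable_splitting_field (p := f.map (algebraMap ℤ ℚ)) h
  refine ⟨{ to_charZero := inferInstance, to_finiteDimensional := hfd }, iG, ?_⟩
  have h1 := hsp.splits'
  rw [Polynomial.map_map] at h1
  have e1 : (algebraMap ℚ M).comp (algebraMap ℤ ℚ) = algebraMap ℤ M := RingHom.ext_int _ _
  rwa [e1] at h1

/-- the splitting field -/
theorem SPT_M (f : ℤ[X]) (h : (f.map (algebraMap ℤ ℚ)).Separable) :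
    ∃ (M : Type) (_ : Field M) (_ : NumberField M) (_ : IsGalois ℚ M), (f.map (algebraMap ℤ M)).Splits := by
  have hs := IsSplittingField.splittingField (f.map (algebraMap ℤ ℚ))
  have hfd := @IsSplittingField.finiteDimensional _ _ _ _ _ (f.map (algebraMap ℤ ℚ)) hs
  obtain ⟨h1, h2, h3⟩ := SPT_M' f h (f.map (algebraMap ℤ ℚ)).SplittingField _ hfd hs
  exact ⟨(f.map (algebraMap ℤ ℚ)).SplittingField, inferInstance, h1, h2, h3⟩

theorem SPT (hCHEB : CHEB_stmt) : SPT_stmt := by
  intro L _ _ T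
  classical
  obtain ⟨α, hα⟩ := Field.exists_primitive_element ℚ L
  have hαalg : IsAlgebraic ℤ α := (IsFractionRing.isAlgebraic_iff ℤ ℚ L).2 (Algebra.IsAlgebraic.isAlgebraic α)
  obtain ⟨y, hy0, hy⟩ := hαalg.exists_integral_multiple
  set θ : L := y • α with hθ
  have hy0' : (y : L) ≠ 0 := by exact_mod_cast hy0
  have hαθ : α = (y : L)⁻¹ * θ := by
    rw [hθ, zsmul_eq_mul, inv_mul_cancel_left₀ hy0']
  obtain ⟨f, hf⟩ : ∃ f : ℤ[X], f = minpoly ℤ θ := ⟨_, rfl⟩
  have hfm : f.Monic := hf ▸ minpoly.monic hy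
  have hf0 : aeval θ f = 0 := hf ▸ minpoly.aeval ℤ θ
  have hfQ : f.map (algebraMap ℤ ℚ) = minpoly ℚ θ := by
    rw [hf]
    exact (minpoly.isIntegrallyClosed_eq_field_fractions' ℚ hy).symm
  have hθQ : IsIntegral ℚ θ := hy.tower_top
  have hsep : (f.map (algebraMap ℤ ℚ)).Separable := by
    rw [hfQ]
    exact (minpoly.irreducible hθQ).separable
  obtain ⟨M, _, _, _, hsM⟩ := SPT_M f hsep
  have hsO := SPT_fac M f hfm hsM
  obtain ⟨m, a, b, hm, hab⟩ := SPT_bez f hsep
  obtain ⟨p, hp, hpT, ⟨ψ⟩⟩ := SPT_hom hCHEB M (T ∪ m.natAbs.primeFactors)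
  rw [Finset.mem_union, not_or] at hpT
  refine ⟨p, hp, hpT.1, ?_⟩
  intro _ Ω _ _ φ x
  have hmp : (m : ZMod p) ≠ 0 := by
    intro h
    rw [ZMod.intCast_zmod_eq_zero_iff_dvd] at h
    exact hpT.2 (Nat.mem_primeFactors.2 ⟨hp, Int.natCast_dvd.1 h, Int.natAbs_ne_zero.2 hm⟩)
  have hsp : (f.map (Int.castRingHom (ZMod p))).Splits := by
    have h1 := hsO.map ψ
    rw [Polynomial.map_map] at h1
    have e1 : ψ.comp (algebraMap ℤ (𝓞 M)) = Int.castRingHom (ZMod p) := RingHom.ext_int _ _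
    rwa [e1] at h1
  have hQp := SPT_split p f hfm m a b hab hmp hsp
  -- the image of `θ`
  have hθΩ : φ θ ∈ (algebraMap ℚ_[p] Ω).range := by
    refine hQp.mem_range_of_isRoot (hfm.map _).ne_zero ?_
    rw [IsRoot, Polynomial.map_map, eval_map]
    have h1 := congrArg φ hf0
    rw [aeval_def, hom_eval₂, map_zero] at h1
    rw [← h1]
    exact congrArg (fun s : ℤ →+* Ω => eval₂ s (φ θ) f) (RingHom.ext_int _ _)
  let K : Subfield L := (RingHom.fieldRange (algebraMap ℚ_[p] Ω)).comap φ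
  have hθK : θ ∈ K := by
    obtain ⟨z, hz⟩ := hθΩ
    exact ⟨z, hz⟩
  have hαK : α ∈ K := by
    rw [hαθ]
    exact mul_mem (inv_mem (intCast_mem K y)) hθK
  have hq : ∀ q : ℚ, algebraMap ℚ L q ∈ K := fun q => by
    rw [eq_ratCast]
    exact SubfieldClass.ratCast_mem K q
  have h1 : IntermediateField.adjoin ℚ {α} ≤ K.toIntermediateField hq := IntermediateField.adjoin_simple_le_iff.2 hαK
  rw [hα] at h1
  have hx : x ∈ K := h1 IntermediateField.mem_top
  obtain ⟨z, hz⟩ := hx
  exact ⟨z, hz⟩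

end Pool.Agent.LB
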